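import Pool.Agent.H466.HD.SA
import Pool.Graph.R_seed8.Helper923.HMertens

/-!
# Project HD (helper466), task PR: sums over primes in logarithmic ranges
-/

set_option autoImplicit false

namespace Pool.Agent.H227.HD

open Finset Pool.Agent.Helper923.HMertens

/-- one block -/
private theorem block (m : ℝ) (hm : 1 ≤ m) (S : Finset ℕ)
    (hS : ∀ p ∈ S, p.Prime ∧ m ≤ Real.log p ∧ Real.log p < m + 1) :
    ∑ p ∈ S, 1 / (p : ℝ) ≤ 6 / m := by
  have h1 : S ⊆ PP ⌊Real.exp (m + 1)⌋₊ := by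
    intro p hp
    obtain ⟨h2, h3, h4⟩ := hS p hp
    rw [Finset.mem_filter, Finset.mem_Icc]
    refine ⟨⟨h2.one_lt.le, Nat.le_floor ?_⟩, h2⟩
    have hp0 : (0 : ℝ) < p := by exact_mod_cast h2.pos
    calc (p : ℝ) = Real.exp (Real.log p) := (Real.exp_log hp0).symm
      _ ≤ Real.exp (m + 1) := Real.exp_le_exp.2 h4.le
  have hm0 : 0 < m := by linarith
  have h2 : ∀ p ∈ S, 1 / (p : ℝ) ≤ Real.log p * (Real.exp (-m) / m) := by
    intro p hp
    obtain ⟨h2, h3, h4⟩ := hS p hp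
    have hp0 : (0 : ℝ) < p := by exact_mod_cast h2.pos
    have h5 : Real.exp m ≤ p := by
      calc Real.exp m ≤ Real.exp (Real.log p) := Real.exp_le_exp.2 h3
        _ = p := Real.exp_log hp0
    have h6 : 1 / (p : ℝ) ≤ Real.exp (-m) := by
      rw [Real.exp_neg, ← one_div]
      exact one_div_le_one_div_of_le (Real.exp_pos m) h5
    have h7 : 1 ≤ Real.log p / m := by
      rw [le_div_iff₀ hm0, one_mul]
      exact h3
    have h8 : Real.log p * (Real.exp (-m) / m) = Real.exp (-m) * (Real.log p / m) := by ring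
    rw [h8]
    exact h6.trans (le_mul_of_one_le_right (Real.exp_pos _).le h7)
  have h3 : ∑ p ∈ S, 1 / (p : ℝ) ≤
      (∑ p ∈ PP ⌊Real.exp (m + 1)⌋₊, Real.log p) * (Real.exp (-m) / m) := by
    calc ∑ p ∈ S, 1 / (p : ℝ) ≤ ∑ p ∈ S, Real.log p * (Real.exp (-m) / m) :=
          Finset.sum_le_sum h2
      _ = (∑ p ∈ S, Real.log p) * (Real.exp (-m) / m) := (Finset.sum_mul _ _ _).symm
      _ ≤ _ := by
        refine mul_le_mul_of_nonneg_right (Finset.sum_le_sum_of_subset_of_nonneg h1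
          fun p hp _ => ?_) (by positivity)
        exact Real.log_natCast_nonneg p
  refine h3.trans ?_
  have h4 := theta_le ⌊Real.exp (m + 1)⌋₊
  have h5 : ((⌊Real.exp (m + 1)⌋₊ : ℕ) : ℝ) ≤ Real.exp (m + 1) :=
    Nat.floor_le (Real.exp_pos _).le
  have h6 : (∑ p ∈ PP ⌊Real.exp (m + 1)⌋₊, Real.log p) * (Real.exp (-m) / m) ≤
      (2 * Real.exp (m + 1)) * (Real.exp (-m) / m) :=
    mul_le_mul_of_nonneg_right (by linarith) (by positivity)
  refine h6.trans ?_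
  have h7 : (2 * Real.exp (m + 1)) * (Real.exp (-m) / m) = 2 * Real.exp 1 / m := by
    rw [Real.exp_add]
    have h8 : Real.exp m * Real.exp (-m) = 1 := by
      rw [← Real.exp_add, add_neg_cancel, Real.exp_zero]
    calc 2 * (Real.exp m * Real.exp 1) * (Real.exp (-m) / m) =
          2 * Real.exp 1 * (Real.exp m * Real.exp (-m)) / m := by ring
      _ = 2 * Real.exp 1 / m := by rw [h8, mul_one]
  rw [h7]
  have h8 := Real.exp_one_lt_d9
  exact div_le_div_of_nonneg_right (by linarith) hm0.le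

private theorem atan_step (w : ℝ) (hw : 0 < w) (hw1 : w ≤ 1) (s : ℝ) :
    w / (3 * (1 + w ^ 2 * s ^ 2)) ≤ Real.arctan (w * (s + 1)) - Real.arctan (w * s) := by
  have hd : ∀ t : ℝ, HasDerivAt (fun t => Real.arctan (w * t)) (1 / (1 + (w * t) ^ 2) * w) t := by
    intro t
    have h1 : HasDerivAt (fun t : ℝ => w * t) w t := by
      have := (hasDerivAt_id t).const_mul w
      rwa [mul_one] at this
    exact h1.arctan
  obtain ⟨c, hc, hc2⟩ := exists_hasDerivAt_eq_slope (fun t => Real.arctan (w * t))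
    (fun t => 1 / (1 + (w * t) ^ 2) * w) (by linarith : s < s + 1)
    (fun t _ => (hd t).continuousAt.continuousWithinAt) (fun t _ => hd t)
  have hc2 : 1 / (1 + (w * c) ^ 2) * w =
      (Real.arctan (w * (s + 1)) - Real.arctan (w * s)) / (s + 1 - s) := hc2
  rw [add_sub_cancel_left, div_one] at hc2
  rw [← hc2, one_div_mul_eq_div]
  refine div_le_div_of_nonneg_left hw.le (by positivity) ?_
  obtain ⟨h1, h2⟩ := hc
  have h3 : c ^ 2 ≤ 2 * s ^ 2 + 2 := by nlinarith [sq_nonneg (s - (c - s))]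
  have h4 : w ^ 2 * c ^ 2 ≤ w ^ 2 * (2 * s ^ 2 + 2) := mul_le_mul_of_nonneg_left h3 (by positivity)
  have h5 : w ^ 2 ≤ 1 := pow_le_one₀ hw.le hw1
  have h6 : 0 ≤ w ^ 2 * s ^ 2 := by positivity
  rw [mul_pow]
  nlinarith

private theorem sum_lor (w : ℝ) (hw : 0 < w) (hw1 : w ≤ 1) (y : ℝ) (K : ℕ) :
    ∑ k ∈ Finset.range K, 1 / (1 + w ^ 2 * ((k : ℝ) - y) ^ 2) ≤ 12 / w := by
  have h1 : ∀ k ∈ Finset.range K, 1 / (1 + w ^ 2 * ((k : ℝ) - y) ^ 2) ≤
      3 / w * (Real.arctan (w * (((k + 1 : ℕ) : ℝ) - y)) - Real.arctan (w * ((k : ℝ) - y))) := by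
    intro k _
    have h2 := atan_step w hw hw1 ((k : ℝ) - y)
    have h3 : (k : ℝ) - y + 1 = ((k + 1 : ℕ) : ℝ) - y := by
      push_cast
      ring
    rw [h3] at h2
    have h4 := mul_le_mul_of_nonneg_left h2 (by positivity : 0 ≤ 3 / w)
    refine le_trans (le_of_eq ?_) h4
    field_simp
  refine (Finset.sum_le_sum h1).trans ?_
  rw [← Finset.mul_sum, Finset.sum_range_sub (fun k : ℕ => Real.arctan (w * ((k : ℝ) - y)))]
  have h2 := Real.arctan_lt_pi_div_two (w * ((K : ℝ) - y))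
  have h3 := Real.neg_pi_div_two_lt_arctan (w * (((0 : ℕ) : ℝ) - y))
  have h4 := Real.pi_lt_d2
  have h5 : 3 / w * (Real.arctan (w * ((K : ℝ) - y)) - Real.arctan (w * (((0 : ℕ) : ℝ) - y))) ≤
      3 / w * 4 :=
    mul_le_mul_of_nonneg_left ((sub_lt_sub h2 h3).le.trans (by linarith only [h4]))
      (by positivity)
  refine h5.trans (le_of_eq ?_)
  ring

private theorem gauss_lor {w x s k y : ℝ} (hw : 0 < w) (hw1 : w ≤ 1) (hs1 : k ≤ s)
    (hs2 : s < k + 1) (hy : x - (s + (x - y)) = y - s) :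
    Real.exp (-(w ^ 2 * (x - (s + (x - y))) ^ 2)) ≤ 6 * (1 / (1 + w ^ 2 * (k - y) ^ 2)) := by
  rw [hy]
  obtain ⟨a, ha⟩ : ∃ a, a = w ^ 2 * (k - y) ^ 2 := ⟨_, rfl⟩
  have ha0 : 0 ≤ a := by
    rw [ha]
    positivity
  have h1 : a / 2 - 1 ≤ w ^ 2 * (y - s) ^ 2 := by
    have h2 : (k - y) ^ 2 ≤ 2 * (y - s) ^ 2 + 2 := by
      nlinarith [sq_nonneg ((y - s) - (s - k))]
    have h3 := mul_le_mul_of_nonneg_left h2 (by positivity : 0 ≤ w ^ 2)
    have h5 : w ^ 2 ≤ 1 := pow_le_one₀ hw.le hw1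
    rw [ha]
    linarith
  have h2 : Real.exp (-(w ^ 2 * (y - s) ^ 2)) ≤ Real.exp 1 * Real.exp (-(a / 2)) := by
    rw [← Real.exp_add]
    exact Real.exp_le_exp.2 (by linarith)
  refine h2.trans ?_
  have h3 : Real.exp (-(a / 2)) ≤ 2 * (1 / (1 + a)) := by
    rw [Real.exp_neg, mul_one_div, ← one_div, div_le_div_iff₀ (Real.exp_pos _) (by linarith)]
    have := Real.add_one_le_exp (a / 2)
    linarith
  have h4 := Real.exp_one_lt_d9
  rw [← ha]
  have h5 : 0 ≤ 2 * (1 / (1 + a)) := by positivity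
  calc Real.exp 1 * Real.exp (-(a / 2)) ≤ 3 * (2 * (1 / (1 + a))) :=
        mul_le_mul (by linarith) h3 (Real.exp_pos _).le (by norm_num)
    _ = 6 * (1 / (1 + a)) := by ring

private theorem pr1 : ∃ C : ℝ, 0 < C ∧ ∀ (u w x : ℝ) (N : ℕ), 1 ≤ u → 0 < w → w ≤ 1 →
    ∑ p ∈ (Finset.Icc 1 N).filter (fun p : ℕ => p.Prime ∧ u ≤ Real.log p),
      Real.exp (-(w ^ 2 * (x - Real.log p) ^ 2)) / p ≤ C / (w * u) := by
  refine ⟨432, by norm_num, fun u w x N hu hw hw1 => ?_⟩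
  obtain ⟨P, hP⟩ : ∃ P, P = (Finset.Icc 1 N).filter
    (fun p : ℕ => p.Prime ∧ u ≤ Real.log p) := ⟨_, rfl⟩
  have hPm : ∀ p ∈ P, p.Prime ∧ u ≤ Real.log p := by
    intro p hp
    rw [hP, Finset.mem_filter] at hp
    exact hp.2
  rw [← hP]
  obtain ⟨kk, hkk⟩ : ∃ kk : ℕ → ℕ, ∀ p, kk p = ⌊Real.log p - u⌋₊ := ⟨_, fun _ => rfl⟩
  obtain ⟨K, hK⟩ : ∃ K : ℕ, ∀ p ∈ P, kk p ∈ Finset.range K := by
    refine ⟨P.sup kk + 1, fun p hp => ?_⟩
    rw [Finset.mem_range]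
    have := Finset.le_sup (f := kk) hp
    omega
  rw [← Finset.sum_fiberwise_of_maps_to hK]
  have hu0 : 0 < u := by linarith
  have h1 : ∀ k ∈ Finset.range K, ∑ p ∈ P.filter (fun p => kk p = k),
      Real.exp (-(w ^ 2 * (x - Real.log p) ^ 2)) / p ≤
      36 / u * (1 / (1 + w ^ 2 * ((k : ℝ) - (x - u)) ^ 2)) := by
    intro k _
    have hb : ∀ p ∈ P.filter (fun p => kk p = k), p.Prime ∧ u + k ≤ Real.log p ∧
        Real.log p < u + k + 1 := by
      intro p hp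
      rw [Finset.mem_filter] at hp
      obtain ⟨h2, h3⟩ := hPm p hp.1
      have h4 : ((kk p : ℕ) : ℝ) ≤ Real.log p - u := by
        rw [hkk]
        exact Nat.floor_le (by linarith)
      have h5 : Real.log p - u < (kk p : ℕ) + 1 := by
        rw [hkk]
        exact Nat.lt_floor_add_one _
      rw [hp.2] at h4 h5
      exact ⟨h2, by linarith, by linarith⟩
    have hk0 : (0 : ℝ) ≤ k := Nat.cast_nonneg k
    have h2 : ∀ p ∈ P.filter (fun p => kk p = k),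
        Real.exp (-(w ^ 2 * (x - Real.log p) ^ 2)) / p ≤
        6 * (1 / (1 + w ^ 2 * ((k : ℝ) - (x - u)) ^ 2)) * (1 / (p : ℝ)) := by
      intro p hp
      obtain ⟨h3, h4, h5⟩ := hb p hp
      have h6 := gauss_lor (x := x) (s := Real.log p - u) (k := k) (y := x - u) hw hw1
        (by linarith) (by linarith) (by ring)
      have h7 : Real.log p - u + (x - (x - u)) = Real.log p := by ring
      rw [h7] at h6
      rw [div_eq_mul_one_div]
      exact mul_le_mul_of_nonneg_right h6 (by positivity)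
    refine (Finset.sum_le_sum h2).trans ?_
    rw [← Finset.mul_sum]
    have h3 := block (u + k) (by linarith) _ hb
    have h4 : 6 / (u + k) ≤ 6 / u := div_le_div_of_nonneg_left (by norm_num) hu0 (by linarith)
    have h5 : 0 ≤ 1 / (1 + w ^ 2 * ((k : ℝ) - (x - u)) ^ 2) := by positivity
    calc 6 * (1 / (1 + w ^ 2 * ((k : ℝ) - (x - u)) ^ 2)) *
          ∑ p ∈ P.filter (fun p => kk p = k), 1 / (p : ℝ) ≤
          6 * (1 / (1 + w ^ 2 * ((k : ℝ) - (x - u)) ^ 2)) * (6 / u) :=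
          mul_le_mul_of_nonneg_left (h3.trans h4) (by positivity)
      _ = 36 / u * (1 / (1 + w ^ 2 * ((k : ℝ) - (x - u)) ^ 2)) := by ring
  refine (Finset.sum_le_sum h1).trans ?_
  rw [← Finset.mul_sum]
  have h2 := mul_le_mul_of_nonneg_left (sum_lor w hw hw1 (x - u) K)
    (by positivity : 0 ≤ 36 / u)
  refine h2.trans (le_of_eq ?_)
  field_simp
  norm_num

private theorem pr2 (ε : ℝ) (hε : 0 < ε) : ∃ c U : ℝ, 0 < c ∧ 1 ≤ U ∧ ∀ u : ℝ, U ≤ u →
    c ≤ ∑ p ∈ (Finset.Icc 1 ⌊Real.exp ((1 + ε) * u)⌋₊).filter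
      (fun p : ℕ => p.Prime ∧ u ≤ Real.log p), 1 / (p : ℝ) := by
  obtain ⟨C₀, hC₀⟩ := mertens_log
  have hC0 : 0 ≤ C₀ := (abs_nonneg _).trans (hC₀ 1 le_rfl)
  refine ⟨ε / (2 * (1 + ε)), max 1 ((4 * C₀ + 2) / ε), by positivity, le_max_left _ _,
    fun u hu => ?_⟩
  have hu1 : 1 ≤ u := (le_max_left _ _).trans hu
  have hu2 : 4 * C₀ + 2 ≤ ε * u := by
    have := (le_max_right _ _).trans hu
    rw [div_le_iff₀ hε] at this
    linarith
  obtain ⟨N₂, hN₂⟩ : ∃ N₂, N₂ = ⌊Real.exp ((1 + ε) * u)⌋₊ := ⟨_, rfl⟩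
  obtain ⟨N₁, hN₁⟩ : ∃ N₁, N₁ = ⌊Real.exp u⌋₊ := ⟨_, rfl⟩
  rw [← hN₂]
  have hX0 : 0 < (1 + ε) * u := by positivity
  have hX1 : 1 ≤ (1 + ε) * u := by nlinarith
  have hE2 : 2 ≤ Real.exp ((1 + ε) * u) := by
    have := Real.add_one_le_exp ((1 + ε) * u)
    linarith
  have hN21 : 1 ≤ N₂ := by
    rw [hN₂]
    exact Nat.le_floor (by push_cast; linarith)
  have hN11 : 1 ≤ N₁ := by
    rw [hN₁]
    refine Nat.le_floor ?_
    have := Real.add_one_le_exp u
    push_cast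
    linarith
  have m1 := (abs_le.1 (hC₀ N₂ hN21)).1
  have m2 := (abs_le.1 (hC₀ N₁ hN11)).2
  have l1 : Real.log N₁ ≤ u := by
    have h1 : (N₁ : ℝ) ≤ Real.exp u := by
      rw [hN₁]
      exact Nat.floor_le (Real.exp_pos _).le
    have h2 := Real.log_le_log (by exact_mod_cast hN11) h1
    rwa [Real.log_exp] at h2
  have l2 : (1 + ε) * u - 1 ≤ Real.log N₂ := by
    have h1 : Real.exp ((1 + ε) * u) / 2 ≤ N₂ := by
      have h2 : Real.exp ((1 + ε) * u) < N₂ + 1 := by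
        rw [hN₂]
        exact Nat.lt_floor_add_one _
      linarith
    have h3 := Real.log_le_log (by positivity) h1
    rw [Real.log_div (Real.exp_pos _).ne' (by norm_num), Real.log_exp] at h3
    have h4 := Real.log_two_lt_d9
    linarith
  obtain ⟨Q, hQ⟩ : ∃ Q, Q = (Finset.Icc 1 N₂).filter
    (fun p : ℕ => p.Prime ∧ u ≤ Real.log p) := ⟨_, rfl⟩
  rw [← hQ]
  have s1 : (Finset.Icc 1 N₂).filter Nat.Prime ⊆ Q ∪ (Finset.Icc 1 N₁).filter Nat.Prime := by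
    intro p hp
    rw [Finset.mem_filter] at hp
    rw [Finset.mem_union, hQ, Finset.mem_filter, Finset.mem_filter]
    by_cases h1 : u ≤ Real.log p
    · exact Or.inl ⟨hp.1, hp.2, h1⟩
    · right
      refine ⟨Finset.mem_Icc.2 ⟨hp.2.one_lt.le, ?_⟩, hp.2⟩
      rw [hN₁]
      refine Nat.le_floor ?_
      have hp0 : (0 : ℝ) < p := by exact_mod_cast hp.2.pos
      calc (p : ℝ) = Real.exp (Real.log p) := (Real.exp_log hp0).symm
        _ ≤ Real.exp u := Real.exp_le_exp.2 (not_le.1 h1).le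
  have hnn : ∀ p : ℕ, 0 ≤ Real.log p / p := fun p =>
    div_nonneg (Real.log_natCast_nonneg p) (Nat.cast_nonneg p)
  have s2 : ∑ p ∈ (Finset.Icc 1 N₂).filter Nat.Prime, Real.log p / p ≤
      ∑ p ∈ Q, Real.log p / p + ∑ p ∈ (Finset.Icc 1 N₁).filter Nat.Prime, Real.log p / p := by
    refine (Finset.sum_le_sum_of_subset_of_nonneg s1 fun p _ _ => hnn p).trans ?_
    rw [← Finset.sum_union_inter]
    have : 0 ≤ ∑ p ∈ Q ∩ (Finset.Icc 1 N₁).filter Nat.Prime, Real.log p / p :=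
      Finset.sum_nonneg fun p _ => hnn p
    linarith
  have s3 : ε * u / 2 ≤ ∑ p ∈ Q, Real.log p / p := by linarith
  have s4 : ∑ p ∈ Q, Real.log p / p ≤ ((1 + ε) * u) * ∑ p ∈ Q, 1 / (p : ℝ) := by
    rw [Finset.mul_sum]
    refine Finset.sum_le_sum fun p hp => ?_
    rw [hQ, Finset.mem_filter, Finset.mem_Icc] at hp
    have hp0 : (0 : ℝ) < p := by exact_mod_cast hp.2.1.pos
    have h1 : (p : ℝ) ≤ Real.exp ((1 + ε) * u) := by
      have h2 : (p : ℝ) ≤ N₂ := by exact_mod_cast hp.1.2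
      refine h2.trans ?_
      rw [hN₂]
      exact Nat.floor_le (Real.exp_pos _).le
    have h2 := Real.log_le_log hp0 h1
    rw [Real.log_exp] at h2
    rw [div_eq_mul_one_div]
    exact mul_le_mul_of_nonneg_right h2 (by positivity)
  have s5 : ε * u / 2 ≤ ((1 + ε) * u) * ∑ p ∈ Q, 1 / (p : ℝ) := s3.trans s4
  have s6 : ε / (2 * (1 + ε)) = (ε * u / 2) / ((1 + ε) * u) := by
    field_simp
  rw [s6, div_le_iff₀ hX0]
  linarith only [s5]

theorem pr : Pool.Agent.H466.HD.S_PR := ⟨pr1, pr2⟩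

end Pool.Agent.H227.HD
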